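import Pool.Agent.Y692.QS.Rec
import Pool.Agent.Q255.CU.Stm

set_option autoImplicit false

/-!
# Project CC (helper152): short sums of almost all cubic Dirichlet characters

`Ei` is the ring of Eisenstein integers `ℤ[w]`, `nr` its norm, `star` the conjugation, `toC` the
embedding in `ℂ` (files `Y692/QS/Ei`, `Chi`, `Jac`, `Rec`). The cubic symbol `(n/α)` of a rational
integer `n` and of `α ≡ 1 mod 3` is, as a function of `α`, multiplicative and periodic modulo `9 n`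
(structure `Kap`, cubic reciprocity). Averages over `α` in a box are small unless `n` is a cube, so
that the moments of `∑ c_n (n/α)` over `α` are those of a random cubic function (project CU of
helper255). Every primitive cubic Dirichlet character is `n ↦ (n/α) ψ(n)`, `ψ` modulo `1` or `9`.
-/

namespace Pool.Agent.Q152.CC

open Finset MeasureTheory Pool.Agent.Y692.QS
open Pool.Agent.Q255.CU (fc m3)

noncomputable section

/-- the symbol of the prime `q` as a function of `α` -/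
def kp (q : ℕ) (α : Ei) : Ei :=
  if h : q.Prime ∧ q ≠ 3 then (haveI : Fact q.Prime := ⟨h.1⟩; kq q h.2 α)
  else if q = 3 then k3 α else 1

/-- the symbol of `n`, completely multiplicative in `n` -/
def kn (n : ℕ) (α : Ei) : Ei := ∏ q ∈ n.primeFactors, kp q α ^ n.factorization q

open Classical in
/-- the cubic residue symbol `(n/α)` as a complex number, `0` if `n` and `α` have a common factor -/
def xi (α : Ei) (n : ℕ) : ℂ := if IsCoprime (nr α) (n : ℤ) then toC (kn n α) else 0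

/-- the Eisenstein integers that are `1` modulo `3` -/
def al (a b : ℤ) : Ei := ⟨1 + 3 * a, 3 * b⟩

/-- the random cubic function -/
abbrev rc (ω : ℕ → ZMod 3) (n : ℕ) : ℂ := Pool.Agent.Q255.CU.f3 ω n

/-- its probability space -/
abbrev rm : Measure (ℕ → ZMod 3) := Measure.infinitePi fun _ : ℕ => m3

/-- KMU: `kn` is completely multiplicative in `n`.
Proof: `kn n α = n.factorization.prod (fun q e => kp q α ^ e)` (unfold, `Finsupp.prod`,
`Nat.support_factorization`); `Nat.factorization_mul`, `Finsupp.prod_add_index'` (`pow_zero`,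
`pow_add`). -/
def S_KMU : Prop := ∀ (a b : ℕ) (α : Ei), a ≠ 0 → b ≠ 0 → kn (a * b) α = kn a α * kn b α

/-- KAP: `kn n` computes the cubic symbols of `n`. Uses `S_KMU`.
Proof: induction over the primes as in `Kap.exists` (end of `Y692/QS/Rec`): `kn 1 = 1` is `Kap.one`;
`kn q = kp q` is `Kap.prime` for a prime `q ≠ 3` and `Kap.three` for `q = 3`
(`Nat.Prime.primeFactors`, `Nat.Prime.factorization_self`); `Kap.prod` and `S_KMU` for the step. -/
def S_KAP : Prop := ∀ n : ℕ, n ≠ 0 → Kap (n : ℤ) (kn n)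

/-- NTP: the symbol of a prime is not trivial.
Proof. `q = 3`: `γ = 1 + 3 w`, `k3 γ = f3 1 = w`, norm `7`. Let `q ≠ 3`. `kq γ = cu z (KK γ)` and by
`cu_spec` (with `KK_cube`) `kq γ = 1` implies `KK γ = hom z _ 1 = 1`. By `KK_per` the value `KK γ` depends
on `γ` modulo `q` only, so a solution `γ₀` (norm prime to `q`, `KK γ₀ ≠ 1`) can be replaced by
`γ = 1 + 3 u (γ₀ - 1)` with an integer `u`, `3 u ≡ 1` modulo `q`; `nr γ ≡ nr γ₀` modulo `q`.
`z = zq q _` in the algebraic closure `Kq q` satisfies `z² + z + 1 = 0`, `z ≠ 1`.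
(a) `q ≡ 1 mod 3`. `z = z₀` for an integer `z₀`: the group `(ZMod q)ˣ` has an element `g` of order `3`
(Cauchy, `exists_prime_orderOf_dvd_card`), `g² + g + 1 = 0`, the two roots of `X² + X + 1` are `g` and
`-1 - g`, so `z` is one of them. For an integer `s` put `γ_s = 1 + s (w - z₀)`. Then
`rq γ_s = 1`, `rq (star γ_s) = 1 + s (-1 - 2 z) =: v_s`, so `rq (nr γ_s) = v_s` (`mul_star`) and
`KK γ_s = v_s^(2 (q-1)/3)`. Since `1 + 2 z ≠ 0` (its square is `-3`), `v_s` takes all values of the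
prime field as `s` varies. If `KK γ_s = 1` whenever `v_s ≠ 0`, the polynomial `X^(2(q-1)/3) - 1` had
`q - 1` roots, more than its degree: contradiction (`q ≥ 7`).
(b) `q ≡ 2 mod 3`. For `x = rq γ`: `rq (nr γ) = x * x^q` (`rq_frob_two`, `mul_star`), so for
`x ≠ 0`: `KK γ = (x^(q+2))^((q+1)/3) / x^(q+1) = x^((q²-1)/3)` (multiply by `x^(q+1)`;
`(q+2)(q+1)/3 = (q+1) + (q²-1)/3`). The map `(a, b) ↦ a + b z` from `ZMod q × ZMod q` to `Kq q` is
injective: `z` is not in the prime field, since `z^q = z² ≠ z`. So `q² - 1` elements `x ≠ 0` occur; if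
all had `x^((q²-1)/3) = 1` there were more roots than the degree. (`x ≠ 0` iff `q ∤ nr γ`.) -/
def S_NTP : Prop := ∀ q : ℕ, q.Prime → ∃ γ : Ei, IsCoprime (nr γ) (q : ℤ) ∧ (3 : Ei) ∣ γ - 1 ∧
  kp q γ ≠ 1

/-- BET: a non-trivial value of the symbol of `A B²`. Uses `S_NTP`, `S_KAP` (`S_KMU`).
Proof: choose a prime `q` with `v_q(A) ≢ v_q(B)` modulo `3` (`fc n q = (n.factorization q : ZMod 3)`),
`γ` from `S_NTP` for `q`, and let `D` be the `q`-free part of `A B`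
(`ordCompl[q] (A * B)`), prime to `q`.
Case `q ≠ 3`: `β = 1 + 27 D u (γ - 1)` with an integer `u`, `27 D u ≡ 1` modulo `q`; so `β ≡ γ`
modulo `q`, `β ≡ 1` modulo `27 D`. Case `q = 3`: `β = 1 + D u (γ - 1)`, `D u ≡ 1` modulo `27`; so
`β ≡ γ` modulo `27`, `β ≡ 1` modulo `D`. For the primes `q' ≠ q` dividing `A B`: `kp q' β = kp q' 1 = 1`
(for `q' ≠ 3` by `KK_per`, the value depends on `β` modulo `q'` only; for `q' = 3` by `Kap.per` of
`Kap.three`, modulo `27`; the value at `1` is `1` since `Kap.mul` gives `κ 1 = κ 1 * κ 1` and it is a cube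
root of unity), and `kp q β = kp q γ =: ζ ≠ 1`, `ζ³ = 1` (same argument). So
`kn A β * star (kn B β) = ζ^(v_q A) * star ζ^(v_q B)`, `star ζ = ζ⁻¹ = ζ²` (`star_cube`), which is `1`
only if `3 ∣ v_q(A) - v_q(B)`. The norm of `β` is `1` modulo every prime `q' ≠ q` dividing `A B` and
`nr γ` modulo `q`, so it is prime to `A B`. -/
def S_BET : Prop := ∀ A B : ℕ, 1 ≤ A → 1 ≤ B → fc A ≠ fc B →
  ∃ β : Ei, (3 : Ei) ∣ β - 1 ∧ IsCoprime (nr β) ((A * B : ℕ) : ℤ) ∧ kn A β * star (kn B β) ≠ 1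

/-- PER: `xi` is periodic. Uses `S_KAP`.
Proof: `n ∣ nr α - nr β` (both norms are `α star α`; `int_dvd_int`), so that the coprimality conditions
agree; `Kap.per`. -/
def S_PER : Prop := ∀ (n : ℕ) (α β : Ei), 1 ≤ n → (3 : Ei) ∣ α - 1 → (3 : Ei) ∣ β - 1 →
  ((9 * (n : ℤ) : ℤ) : Ei) ∣ α - β → xi α n = xi β n

/-- XMU: multiplicativity and size of `xi`. Uses `S_KMU`, `S_KAP`.
Proof: (1) `S_KMU` and `IsCoprime.mul_right_iff`. (2) `Kap.mul`, `nr_mul`, `IsCoprime.mul_left_iff`.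
(3) `Kap.cube`: a complex number with cube `1` has norm `1`. -/
def S_XMU : Prop :=
  (∀ (α : Ei) (m n : ℕ), 1 ≤ m → 1 ≤ n → xi α (m * n) = xi α m * xi α n) ∧
  (∀ (α β : Ei) (n : ℕ), 1 ≤ n → (3 : Ei) ∣ α - 1 → (3 : Ei) ∣ β - 1 →
    xi (α * β) n = xi α n * xi β n) ∧
  (∀ (α : Ei) (n : ℕ), 1 ≤ n → (3 : Ei) ∣ α - 1 → ‖xi α n‖ ≤ 1)

/-- FUL: the sum over a full period is zero. Uses `S_BET`, `S_PER`, `S_XMU`.
Proof: `T = 3 A B`, `G(α) = xi α A * star (xi α B)`. For `α = 1 + 3 z` the value `G(1 + 3 z)` depends on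
`z` modulo `T` only (`S_PER`, `9 A` and `9 B` divide `3 T = 9 A B`). So `G(1 + 3 z) = F(z̄)` with a function
`F` on the finite ring `R = QuadraticAlgebra (ZMod T) (-1) (-1)` or on `ZMod T × ZMod T`, and the double
sum is `∑_{z ∈ R} F(z)` for all shifts `a, b` (complete residue systems). With `β = 1 + 3 β'` of `S_BET`:
`(1 + 3 z) β = 1 + 3 (β z + β')` and `G((1+3z) β) = G(1+3z) G(β)` (`S_XMU` (2)), `G(β) ≠ 1`. The map
`z ↦ β z + β'` is a bijection of `R`, since `β` is a unit modulo `T`: `nr β` is prime to `A B` and (being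
`1` modulo `3`) to `3`, and `β star β = nr β`. So `∑ F = G(β) ∑ F`, hence `∑ F = 0`. -/
def S_FUL : Prop := ∀ A B : ℕ, 1 ≤ A → 1 ≤ B → fc A ≠ fc B → ∀ a b : ℤ,
  ∑ x ∈ range (3 * A * B), ∑ y ∈ range (3 * A * B),
    xi (al (a + x) (b + y)) A * star (xi (al (a + x) (b + y)) B) = 0

/-- BOX: sums over boxes. Uses `S_FUL`, `S_PER`, `S_XMU`.
Proof: `T = 3 A B`, `L = m T + r`, `r < T`. The square `[0, mT)²` is a union of squares of side `T`
(`S_FUL` with shifts `a + i T`, `b + j T`), its sum is `0`. The other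
`L² - (mT)² ≤ 2 L (L - m T) ≤ 2 L T` points contribute at most `1` each (`S_XMU` (3)). -/
def S_BOX : Prop := ∀ A B : ℕ, 1 ≤ A → 1 ≤ B → fc A ≠ fc B → ∀ (a b : ℤ) (L : ℕ),
  ‖∑ x ∈ range L, ∑ y ∈ range L,
    xi (al (a + x) (b + y)) A * star (xi (al (a + x) (b + y)) B)‖ ≤ 2 * L * (3 * A * B)

/-- PIX: a prime `p ≡ 1 mod 3` is a norm.
Proof (Thue): `z² + z + 1 ≡ 0` modulo `p` for an integer `z` (element of order `3` of `(ZMod p)ˣ`). By the
pigeonhole principle there are `(x, y) ≠ (0, 0)`, `|x|, |y| ≤ √p` (so `< √p`), with `x ≡ z y`; then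
`p ∣ x² + x y + y²`, which is positive and `< 3 p`, so `p` or `2 p`; it is not `2 p`: an even value has
`x, y` even and is divisible by `4`, but `2 p` is not. So `p = nr ⟨x, -y⟩`. (Perhaps the library has it:
look for `x ^ 2 + x * y + y ^ 2 = p` under `Pool/Agent`.) -/
def S_PIX : Prop := ∀ p : ℕ, p.Prime → p % 3 = 1 → ∃ π : Ei, nr π = p

/-- CHP: the cubic characters modulo a prime. Uses `S_PIX`, `S_KAP`.
Proof: `χ ≠ 1`, `χ³ = 1`: `3 ∣ p - 1` (the order of `χ` is `3` and divides `p - 1`), so `p ≡ 1 mod 3`,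
`p ≠ 3`. Let `π` be as in `S_PIX`, `c = chi hπ hp3` (a `MulChar (ZMod p) Ei` of order three). With a
generator `g` of the cyclic group `(ZMod p)ˣ`: `χ g` is a cube root of unity `≠ 1` (else `χ = 1`), and so
is `toC (c g)`; so `χ g = toC (c g)` or `χ g = toC (c g)² = toC (star (c g))`, and then `χ = toC ∘ c` or
`χ = toC ∘ star ∘ c` on the units, where `star (c t) = chi (for star π) t` (`chi_inv` in `Chi.lean`, and
`star_cube`). So `χ = toC ∘ chi hπ' hp3` with `π' = π` or `star π`. By `Kap.val` of `S_KAP`: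
`chi hπ' hp3 n = kn n (ns π')` for `n` prime to `p`. Put `α = ns π'` (`ns_one`, `nr_ns`). For `p ∣ n` both
sides are `0`. -/
def S_CHP : Prop := ∀ p : ℕ, p.Prime → ∀ χ : DirichletCharacter ℂ p, χ ^ 3 = 1 → χ ≠ 1 →
  ∃ α : Ei, (3 : Ei) ∣ α - 1 ∧ nr α = p ∧ ∀ n : ℕ, 1 ≤ n → χ (n : ZMod p) = xi α n

/-- CRT: primitive characters of a composite modulus.
Proof: `ZMod.chineseRemainder` gives `(ZMod (a b))ˣ ≃* (ZMod a)ˣ × (ZMod b)ˣ`; `χ₁(x) = χ(x, 1)`,
`χ₂(y) = χ(1, y)` (`MulChar.ofUnitHom`). For `n` prime to `a b` the formula is clear, otherwise both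
sides are `0`. Cubes: from the formula on units. Primitive: if `χ₁` factors through `d ∣ a` then `χ`
factors through `d b`, so `d b = a b` (the conductor of `χ` is `a b` and divides every level through
which `χ` factors, `DirichletCharacter.conductor_dvd_of_...`/`factorsThrough_iff_ker_unitsMap`). -/
def S_CRT : Prop := ∀ a b : ℕ, 1 ≤ a → 1 ≤ b → a.Coprime b →
  ∀ χ : DirichletCharacter ℂ (a * b), χ ^ 3 = 1 → χ.IsPrimitive →
  ∃ (χ₁ : DirichletCharacter ℂ a) (χ₂ : DirichletCharacter ℂ b), χ₁ ^ 3 = 1 ∧ χ₂ ^ 3 = 1 ∧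
    χ₁.IsPrimitive ∧ χ₂.IsPrimitive ∧
    ∀ n : ℕ, χ (n : ZMod (a * b)) = χ₁ (n : ZMod a) * χ₂ (n : ZMod b)

/-- CND: the conductors of cubic characters.
Proof: if for some proper divisor `d` of `m` every unit `x ≡ 1` modulo `d` has `χ x = 1`, then `χ` factors
through `d` (`DirichletCharacter.factorsThrough_iff_ker_unitsMap`) and is not primitive.
(a) `p² ∣ m`, `p ≠ 3`: `d = m/p`; for `x = 1 + d t`: `x^p ≡ 1` modulo `m` (`m ∣ d²`, `m ∣ p d`), so
`(χ x)^p = 1 = (χ x)³` and `χ x = 1`.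
(b) `27 ∣ m`: `d = m/3`; for `x = 1 + (m/3) t` put `y = 1 + (m/9) t`; `y³ ≡ x` modulo `m`, `y` is a unit, so
`χ x = (χ y)³ = 1`.
(c) `3 ∣ m`, `9 ∤ m`: `d = m/3`, prime to `3`; `x ≡ 1` modulo `d` has `x² ≡ 1` modulo `m`, so
`(χ x)² = 1 = (χ x)³`. -/
def S_CND : Prop := ∀ m : ℕ, 1 ≤ m → ∀ χ : DirichletCharacter ℂ m, χ ^ 3 = 1 → χ.IsPrimitive →
  (∀ p : ℕ, p.Prime → p ≠ 3 → ¬ p ^ 2 ∣ m) ∧ (3 ∣ m → 9 ∣ m ∧ ¬ 27 ∣ m)

/-- ALL: every primitive cubic character. Uses `S_CHP`, `S_CRT`, `S_CND`, `S_XMU`, `S_KAP`.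
Proof: first for `m` prime to `3` (`d = 1`, `ψ = 1`; then `m` is squarefree by `S_CND`): strong induction,
`m = 1`: `α = 1`; `m = p m'`: `S_CRT`, `S_CHP` for the part modulo `p` (primitive modulo `p`, so `≠ 1`),
induction for `m'`, and `S_XMU` (2) for the product of the `α`'s (`nr_mul`; the product is `1` modulo `3`).
For `3 ∣ m`: `m = m' * 9` with `m'` prime to `3` by `S_CND`; `S_CRT`. -/
def S_ALL : Prop := ∀ m : ℕ, 1 ≤ m → ∀ χ : DirichletCharacter ℂ m, χ ^ 3 = 1 → χ.IsPrimitive →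
  ∃ (α : Ei) (d : ℕ) (ψ : DirichletCharacter ℂ d), (3 : Ei) ∣ α - 1 ∧ (d = 1 ∨ d = 9) ∧
    nr α * d = m ∧ ∀ n : ℕ, 1 ≤ n → χ (n : ZMod m) = xi α n * ψ (n : ZMod d)

/-- LOC: the `α` of norm at most `P` are in a box. With `s = Nat.sqrt P + 1 > √P`.
Proof: `nr α ≥ (3/4) max(re², im²)`, so `re², im² ≤ 4P/3`; `α = 1 + 3 z` (`prim_form`) with
`|z.re| ≤ (√(4P/3) + 1)/3 < s`, `|z.im| < s`. -/
def S_LOC : Prop := ∀ (P : ℕ) (α : Ei), (3 : Ei) ∣ α - 1 → nr α ≤ P →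
  ∃ x ∈ range (2 * (Nat.sqrt P + 1)), ∃ y ∈ range (2 * (Nat.sqrt P + 1)),
    α = al (-((Nat.sqrt P : ℤ) + 1) + x) (-((Nat.sqrt P : ℤ) + 1) + y)

/-- MOM: the moments over `α` are at most those of the random cubic function. Uses `S_BOX`, `S_XMU`,
`Pool.Agent.Q255.CU.S_SYT` (proved in `Q38/CU/Syt`).
Proof: `|∑ c_n χ(n)|^(2k) = ∑_{(m), (n)} ∏ c_(m_i) ∏ conj c_(n_j) χ(A) conj χ(B)`, `(m), (n)` in `I^k`,
`A = ∏ m_i`, `B = ∏ n_j` (`Finset.prod_univ_sum` or `Finset.sum_pow'`, `Fintype.piFinset`). Sum over the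
box: if `fc A = fc B` the inner sum has norm at most `L²`; otherwise at most `2 L · 3 A B ≤ 6 L R^(2k)`
by `S_BOX`. The pairs with `fc A = fc B`, weighted by `∏ |c_(m_i)| ∏ |c_(n_j)|`, are the integral by the
orthogonality in `S_SYT` (expand in the same way; the integrand is a finite sum of bounded
measurable functions). There are `(card I)^(2k)` pairs. -/
def S_MOM : Prop := ∀ (k R : ℕ) (I : Finset ℕ) (c : ℕ → ℂ), (∀ n ∈ I, 1 ≤ n ∧ n ≤ R) →
  (∀ n ∈ I, ‖c n‖ ≤ 1) → ∀ (a b : ℤ) (L : ℕ),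
  ∑ x ∈ range L, ∑ y ∈ range L, ‖∑ n ∈ I, c n * xi (al (a + x) (b + y)) n‖ ^ (2 * k) ≤
    (L : ℝ) ^ 2 * (∫ ω, ‖∑ n ∈ I, ((‖c n‖ : ℝ) : ℂ) * rc ω n‖ ^ (2 * k) ∂rm) +
      6 * L * (R : ℝ) ^ (2 * k) * (I.card : ℝ) ^ (2 * k)

/-- MB: high moments of the random function. Uses `Pool.Agent.Q255.HC.S_HCI`, `S_SYT`, `S_WGT`,
`S_CUB` of `Pool.Agent.Q255.CU` (all proved: `Pool.Agent.Q166.HC.hci Pool.Agent.Q166.HC.one
Pool.Agent.Q166.HC.upd`, `Pool.Agent.Q38.CU.syt`, `Pool.Agent.Q38.CU.wgt`, `Pool.Agent.Q26.CU.cub`).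
Proof: group the `n` with the same `fc n = x` (as in `ae_int` of `Q255/CU/Ae.lean`): coefficient
`c_x = ∑ c n`, `|c_x|²` at most the square of the number of these `n`. `S_HCI` with `m = k`, the product
`∏ (C v)` is at most `D R^η` by `S_WGT`, and `S_CUB`. -/
def S_MB : Prop := ∀ k : ℕ, 1 ≤ k → ∀ η : ℝ, 0 < η → ∃ D : ℝ, 0 < D ∧ ∀ M N R : ℕ, 1 ≤ N →
  M + N ≤ R → ∀ c : ℕ → ℝ, (∀ n, 0 ≤ c n ∧ c n ≤ 1) →
  ∫ ω, ‖∑ n ∈ Ioc M (M + N), ((c n : ℝ) : ℂ) * rc ω n‖ ^ (2 * k) ∂rm ≤ (D * (R : ℝ) ^ η * N) ^ k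

/-- MS: the mean square of the random function. Uses `S_SYT`, `S_CUB` of `Pool.Agent.Q255.CU`.
Proof: the mean square is the sum of `c_m c_n` over the pairs with `fc m = fc n`, at most
`∑_x (number of n with fc n = x)²`. -/
def S_MS : Prop := ∀ M N : ℕ, 1 ≤ N → ∀ c : ℕ → ℝ, (∀ n, 0 ≤ c n ∧ c n ≤ 1) →
  ∫ ω, ‖∑ n ∈ Ioc M (M + N), ((c n : ℝ) : ℂ) * rc ω n‖ ^ 2 ∂rm ≤ 20 * N

/-- the primitive cubic Dirichlet characters of conductor at most `P` (`χ³ = 1`) -/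
def family (P : ℕ) : Set (Σ m : ℕ, DirichletCharacter ℂ m) :=
  {χ | 1 ≤ χ.1 ∧ χ.1 ≤ P ∧ χ.2.IsPrimitive ∧ χ.2 ^ 3 = 1}

open Classical in
/-- CNT: counting in the family. Uses `S_ALL`, `S_LOC`. `Bad` is a property of functions on the
integers `n ≥ 1`.
Proof: the family is finite (finitely many characters modulo each `m ≤ P`). To a bad `χ` choose
`(α, d, ψ)` by `S_ALL`, `nr α ≤ P`, so `α` is in the box (`S_LOC`, `L = 2 (Nat.sqrt P + 1)`). The map
`χ ↦ (x, y, d, ψ)` is injective: `m = nr α * d`, and `χ` is determined by its values at `n ≥ 1`. There is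
`1` character modulo `1` and there are `6` modulo `9`
(`DirichletCharacter.card_eq_totient_of_hasEnoughRootsOfUnity`), so at most `7` pairs `(d, ψ)`. -/
def S_CNT : Prop := ∀ (P : ℕ) (Bad : (ℕ → ℂ) → Prop),
  (∀ f g : ℕ → ℂ, (∀ n, 1 ≤ n → f n = g n) → (Bad f ↔ Bad g)) →
  (family P).Finite ∧
  (({χ ∈ family P | Bad fun n => χ.2 (n : ZMod χ.1)}.ncard : ℕ) : ℝ) ≤
    7 * ((((range (2 * (Nat.sqrt P + 1))) ×ˢ (range (2 * (Nat.sqrt P + 1)))).filter fun t : ℕ × ℕ =>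
      ∃ (d : ℕ) (ψ : DirichletCharacter ℂ d), (d = 1 ∨ d = 9) ∧ Bad fun n =>
        xi (al (-((Nat.sqrt P : ℤ) + 1) + t.1) (-((Nat.sqrt P : ℤ) + 1) + t.2)) n *
          ψ (n : ZMod d)).card : ℝ)

end

end Pool.Agent.Q152.CC
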