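import Pool.Agent.Q152.CC.Stm3
import Pool.Agent.Q121.CC.Ann
import Pool.Agent.Q121.CC.Xmu
import Pool.Agent.Q124.CC.Ful
import Pool.Agent.Q129.CC.Gau
import Pool.Agent.Q130.CC.Kmu
import Pool.Agent.Q154.CC.Box
import Pool.Agent.Q182.CC.Fn1
import Pool.Agent.Q182.CC.Loc
import Pool.Agent.Q182.CC.Ntp
import Pool.Agent.Q182.CC.Sm
import Pool.Agent.Q190.CC.Ex1
import Pool.Agent.Q198.CC.Mom
import Pool.Agent.Q210.CC.Cnt
import Pool.Agent.Q214.CC.Four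
import Pool.Agent.Q214.CC.KapPer
import Pool.Agent.Q214.CC.Pvb
import Pool.Agent.Q224.CC.MB
import Pool.Agent.Q277.CC.All
import Pool.Agent.Q277.CC.Dir
import Pool.Agent.Q277.CC.Mo2
import Pool.Agent.Q65.CC.Rep
import Pool.Agent.Q38.CU.Syt
import Pool.Agent.Q123.CC.Bet
import Pool.Agent.Q123.CC.Pix
import Pool.Agent.Q123.CC.Chp
import Pool.Agent.Q123.CC.Crt
import Pool.Agent.Q181.CC.Cnd
import Pool.Agent.Q166.CC.Lba
import Pool.Agent.Q285.CC.Lbb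
import Pool.Agent.Q153.CC.Lbc
import Pool.Agent.Q153.CC.Lbn
import Pool.Agent.Q31.CC.LBXS
import Pool.Agent.Q38.CC.Fam
import Pool.Agent.Q182.CC.Ex3
import Pool.Agent.Q129.CC.Fn3

set_option autoImplicit false

/-!
# Assembly of the project CC
-/

namespace Pool.Agent.Q152.CC

theorem kmu' : S_KMU := Pool.Agent.Q130.CC.Kmu.kmu
theorem kap' : S_KAP := Pool.Agent.Q214.CC.kap kmu'
theorem per' : S_PER := Pool.Agent.Q214.CC.per kap'
theorem xmu' : S_XMU := Pool.Agent.Q121.CC.xmu kmu' kap'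
theorem gau' : S_GAU := Pool.Agent.Q129.CC.gau per' xmu'
theorem sum' : S_SUM := Pool.Agent.Q182.CC.sm Pool.Agent.Q121.CC.Ann.ann Pool.Agent.Q65.CC.rep
theorem inv' : S_INV := Pool.Agent.Q214.CC.inv per'

theorem bet' : S_BET := Pool.Agent.Q123.CC.bet Pool.Agent.Q182.CC.ntp kap'
theorem ful' : S_FUL := Pool.Agent.Q124.CC.ful bet' per' xmu'
theorem box' : S_BOX := Pool.Agent.Q154.CC.box ful' xmu'
theorem mom' : S_MOM := Pool.Agent.Q198.CC.mom box' xmu' Pool.Agent.Q38.CU.syt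
theorem pvb' : S_PVB := Pool.Agent.Q214.CC.pvb inv' gau' Pool.Agent.Q277.CC.dir sum' ful'
theorem mo2' : S_MO2 := Pool.Agent.Q277.CC.Mo.mo2 pvb' xmu' Pool.Agent.Q38.CU.syt
theorem ex1' : S_EX1 := Pool.Agent.Q190.CC.ex1 mom' Pool.Agent.Q224.CC.mb
theorem ex3' : S_EX3 := Pool.Agent.Q182.CC.E3.ex3 mo2' Pool.Agent.Q224.CC.mb
theorem pix' : S_PIX := Pool.Agent.Q123.CC.pix
theorem chp' : S_CHP := Pool.Agent.Q123.CC.chp pix' kap'
theorem all' : S_ALL :=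
  Pool.Agent.Q277.CC.all chp' Pool.Agent.Q123.CC.crt Pool.Agent.Q181.CC.cnd xmu' kap'
theorem cnt' : S_CNT := Pool.Agent.Q210.CC.cnt all' Pool.Agent.Q182.CC.loc
theorem fn1' : S_FN1 := Pool.Agent.Q182.CC.fn1 ex1' cnt'
theorem lbc' : S_LBC := Pool.Agent.Q153.CC.lbc (Pool.Agent.Q166.CC.lba pix') Pool.Agent.Q285.CC.lbb
theorem fam' : S_FAM :=
  Pool.Agent.Q38.CC.fam lbc' (Pool.Agent.Q153.CC.lbn pix') Pool.Agent.Q31.CC.lbxS cnt'

theorem fn3' : S_FN3 := Pool.Agent.Q129.CC.Fn3.fn3 ex3' cnt'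

end Pool.Agent.Q152.CC
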