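import Pool.Agent.Q152.CC.Stm

set_option autoImplicit false

/-!
# Project CC (helper152), second part: Polya-Vinogradov for the cubic symbol, exceptional sets

Notation of `Stm.lean`. `T = 3 A B`.
-/

namespace Pool.Agent.Q152.CC

open Finset MeasureTheory Pool.Agent.Y692.QS
open Pool.Agent.Q255.CU (fc m3)

noncomputable section

/-- `exp(2πi t)` -/
def ee (t : ℝ) : ℂ := Complex.exp (2 * Real.pi * t * Complex.I)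

/-- the symbol of `A` times the conjugate of the symbol of `B`, periodic modulo `3 A B` -/
def G (A B : ℕ) (x y : ℤ) : ℂ := xi (al x y) A * star (xi (al x y) B)

/-- its Fourier transform modulo `T = 3 A B` -/
def Gh (A B : ℕ) (i j : ℤ) : ℂ :=
  ∑ x ∈ range (3 * A * B), ∑ y ∈ range (3 * A * B),
    G A B x y * ee (-(i * x + j * y) / (3 * A * B : ℕ))

/-- the Eisenstein integer `u` with `(u (x + y w)).im = i x + j y` -/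
def uu (i j : ℤ) : Ei := ⟨i + j, i⟩

open Classical in
/-- the number of zeros of the multiplication by `u` modulo `T` -/
def an (T : ℕ) (i j : ℤ) : ℕ :=
  ((range T ×ˢ range T).filter fun t => ((T : ℤ) : Ei) ∣ uu i j * (⟨t.1, t.2⟩ : Ei)).card

/-- the Dirichlet kernel -/
def DK (T K : ℕ) (i : ℤ) : ℂ := ∑ s ∈ range K, ee (i * s / T)

/-- GAU: the Gauss sums. Uses `S_PER`, `S_XMU`.
Proof: `T = 3 A B`, `R = O/T` (ring `QuadraticAlgebra (ZMod T) (-1) (-1)` or pairs modulo `T`), `G(z)` for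
`z = x + y w ∈ R` (periodic, `S_PER`), `Ĝ(u) = ∑_z G(z) e(-(u z).im / T)`; this is `Gh` with
`(u z).im = i x + j y`, `u = uu i j`. Let `R* = {z : nr (1 + 3 z) prime to A B}`; `|G| = 1` on `R*` and `0`
elsewhere. For `b ∈ R*`, `β = 1 + 3 b`: `z ↦ β z + b` is a bijection of `R` (`β` is a unit modulo `T`, its
norm is prime to `3 A B`) and `G(β z + b) = G(z) G(b)` (`S_XMU` (2): `(1 + 3 z) β = 1 + 3 (β z + b)`), so
`Ĝ(u) = G(b) e(-(u b).im/T) Ĝ(u β)` and `|Ĝ(u β)| = |Ĝ(u)|`. The elements `u β = u + 3 u b`, `b ∈ R*`: each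
value is taken at most `#{y : 3 u y = 0} ≤ 9 an` times (`#{y : 3 y = 0} = 9`), so there are at least
`|R*| / (9 an)` of them. Parseval: `∑_v |Ĝ(v)|² = T² |R*|` (the pairing is perfect; in the coordinates
`(i, j)` it is the usual double Fourier transform modulo `T`). So `|Ĝ(u)|² |R*| / (9 an) ≤ T² |R*|`, and
`0 ∈ R*`. -/
def S_GAU : Prop := ∀ A B : ℕ, 1 ≤ A → 1 ≤ B → ∀ i j : ℤ,
  ‖Gh A B i j‖ ^ 2 ≤ 9 * ((3 * A * B : ℕ) : ℝ) ^ 2 * an (3 * A * B) i j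

/-- ANN: divisibility of `an`.
Proof: `an` is the order of the subgroup `{y : u y = 0}` of the additive group `R = O/T` of order `T²`
(Lagrange). It is also the index of `u R` in `R`, i.e. of `u O + T O` in `O`, a divisor of the index
of `u O` in `O`, which is `|det| = nr u` (if `u ≠ 0`). -/
def S_ANN : Prop := ∀ (T : ℕ) (i j : ℤ), 1 ≤ T → an T i j ∣ T ^ 2 ∧ ((an T i j : ℕ) : ℤ) ∣ nr (uu i j)

/-- REP: representations by the norm form. `nr (uu i j) = i² + i j + j²`.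
Proof: for coprime `(i, j)`: `j` is prime to `m`, `i ≡ t j` modulo `m` with `t² + t + 1 ≡ 0` modulo `m`;
modulo a prime power this has at most two solutions `t` (for two solutions `t, t'`:
`(t - t') (t + t' + 1) ≡ 0`, and a common prime factor of `t - t'` and `t + t' + 1` divides `2 t + 1`, whose
square is `-3`; modulo `9` there is no solution), so at most `2^ω(m) ≤ τ(m)` solutions modulo `m`; two
representations `u, u'` with the same `t` have `m ∣ u star u'`, so `u = ε u'` with a unit `ε` (`6` units).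
So at most `6 τ(m)`; in general sum over the common divisor `g`, `g² ∣ m`: at most `6 τ(m)²`. Or: unique
factorization in `O` (Euclidean): `u` is a divisor of `m`, at most `6 τ(m)²` or so. Divisor bound
`τ(m) ≤ C m^η`: in the library (grep for divisors and rpow under Pool/Agent). -/
def S_REP : Prop := ∀ η : ℝ, 0 < η → ∃ C : ℝ, 0 < C ∧ ∀ m : ℕ, 1 ≤ m →
  {t : ℤ × ℤ | nr (uu t.1 t.2) = m}.Finite ∧
    (({t : ℤ × ℤ | nr (uu t.1 t.2) = m}.ncard : ℕ) : ℝ) ≤ C * (m : ℝ) ^ η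

/-- SUM: the sum over the frequencies. Uses `S_ANN`, `S_REP`.
Proof: `√(an) ≤ ∑_{d ∣ T², d ∣ nr} √d` (the term `d = an`). The norms are at most `3 T²`. So the sum is at
most `∑_{d ∣ T²} √d ∑_{m ≤ 3T², d ∣ m} r(m)/m ≤ C (3T²)^η' ∑_{d ∣ T²} d^(-1/2) (1 + log(3T²))
≤ C (3T²)^η' τ(T²) (1 + log (3T²))`. -/
def S_SUM : Prop := ∀ η : ℝ, 0 < η → ∃ C : ℝ, 0 < C ∧ ∀ T : ℕ, 1 ≤ T →
  ∑ t ∈ ((Icc (-(T : ℤ)) T) ×ˢ (Icc (-(T : ℤ)) T)).erase (0, 0),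
    Real.sqrt (an T t.1 t.2) / (nr (uu t.1 t.2) : ℝ) ≤ C * (T : ℝ) ^ η

/-- DIR: the Dirichlet kernel. Proof: geometric sum, `|e(t) - 1| = 2 |sin (π t)| ≥ 4 |t|` for
`|t| ≤ 1/2`, `t = i/T`. -/
def S_DIR : Prop := ∀ (T K : ℕ) (i : ℤ), 1 ≤ T → ‖DK T K i‖ ≤ K ∧
  (i ≠ 0 → 2 * |i| ≤ T → ‖DK T K i‖ ≤ T / (2 * (|i| : ℤ)))

/-- INV: Fourier inversion. Uses `S_PER`.
Proof: for all integers `x, y`: `G(x, y) = T^(-2) ∑_{i, j mod T} Ĝ(i, j) e((i x + j y)/T)` (`G` is periodic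
modulo `T` in `x` and `y`); the summand is periodic in `i, j`, so any complete residue system may be
used, here `-⌊T/2⌋ ≤ i < T - ⌊T/2⌋`. Sum over `x = s - s'`, `y = t - t'`:
`∑_{s,s'} e(i (s - s')/T) = |DK i|²`. -/
def S_INV : Prop := ∀ A B K : ℕ, 1 ≤ A → 1 ≤ B →
  ∑ s ∈ range K, ∑ s' ∈ range K, ∑ t ∈ range K, ∑ t' ∈ range K,
    G A B ((s : ℤ) - s') ((t : ℤ) - t') =
  (1 / ((3 * A * B : ℕ) : ℂ) ^ 2) *
    ∑ i ∈ Ico (-((3 * A * B / 2 : ℕ) : ℤ)) (((3 * A * B : ℕ) : ℤ) - (3 * A * B / 2 : ℕ)),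
    ∑ j ∈ Ico (-((3 * A * B / 2 : ℕ) : ℤ)) (((3 * A * B : ℕ) : ℤ) - (3 * A * B / 2 : ℕ)),
      Gh A B i j * ((‖DK (3 * A * B) K i‖ ^ 2 * ‖DK (3 * A * B) K j‖ ^ 2 : ℝ) : ℂ)

/-- PVB: Polya-Vinogradov with smooth weights. Uses `S_INV`, `S_GAU`, `S_DIR`, `S_SUM`, `S_FUL`.
Proof: `Gh A B 0 0 = 0` by `S_FUL`. For `(i, j) ≠ 0`, `m = max(|i|, |j|)`:
`‖DK i‖² ‖DK j‖² ≤ K² T²/(4 m²) ≤ 3 K² T² / (4 nr (uu i j))` (`nr (uu i j) = i² + i j + j² ≤ 3 m²`) and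
`‖Gh‖ ≤ 3 T √an`; so the sum has norm at most
`T^(-2) ∑ 3 T √an · 3 K² T²/(4 nr) = (9/4) T K² ∑ √an / nr ≤ C K² T^(1+η)`. -/
def S_PVB : Prop := ∀ η : ℝ, 0 < η → ∃ C : ℝ, 0 < C ∧ ∀ A B K : ℕ, 1 ≤ A → 1 ≤ B → fc A ≠ fc B →
  ‖∑ s ∈ range K, ∑ s' ∈ range K, ∑ t ∈ range K, ∑ t' ∈ range K,
    G A B ((s : ℤ) - s') ((t : ℤ) - t')‖ ≤ C * (K : ℝ) ^ 2 * ((A : ℝ) * B) ^ (1 + η)

/-- MO2: moments with smooth weights. Uses `S_PVB`, `S_XMU`, `Pool.Agent.Q255.CU.S_SYT`.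
Proof: as for `S_MOM` (expand the `2k`-th power; the pairs with `fc A = fc B` give at most `K⁴` times
the integral, the others at most `C K² (A B)^(1+η) ≤ C K² R^(2k(1+η))` each). -/
def S_MO2 : Prop := ∀ (k : ℕ) (η : ℝ), 0 < η → ∃ C : ℝ, 0 < C ∧ ∀ (R K : ℕ) (I : Finset ℕ)
  (c : ℕ → ℂ), (∀ n ∈ I, 1 ≤ n ∧ n ≤ R) → (∀ n ∈ I, ‖c n‖ ≤ 1) →
  ∑ s ∈ range K, ∑ s' ∈ range K, ∑ t ∈ range K, ∑ t' ∈ range K,
      ‖∑ n ∈ I, c n * xi (al ((s : ℤ) - s') ((t : ℤ) - t')) n‖ ^ (2 * k) ≤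
    (K : ℝ) ^ 4 * (∫ ω, ‖∑ n ∈ I, ((‖c n‖ : ℝ) : ℂ) * rc ω n‖ ^ (2 * k) ∂rm) +
      C * (K : ℝ) ^ 2 * (R : ℝ) ^ (2 * k * (1 + η)) * (I.card : ℝ) ^ (2 * k)

/-- square root cancellation for all intervals below `R` and all characters modulo `q ≤ 9 R` -/
def Good (ε : ℝ) (R : ℕ) (α : Ei) : Prop :=
  ∀ q : ℕ, 1 ≤ q → q ≤ 9 * R → ∀ (ψ : DirichletCharacter ℂ q) (M N : ℕ), M + N ≤ R →
    ‖∑ n ∈ Ioc M (M + N), xi α n * ψ (n : ZMod q)‖ ≤ (R : ℝ) ^ ε * Real.sqrt N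

open Classical in
/-- EX1: the exceptional set at one scale. Uses `S_MOM`, `S_MB`.
Proof: choose `k ≥ (B + 6)/ε`, `D` from `S_MB` with `η = ε`. For given `q, ψ, M, N` (`N ≥ 1`) by `S_MOM` with
`c = ψ`: the sum of `‖S‖^(2k)` over the box is at most `L² (D R^ε N)^k + 6 L R^(2k) N^(2k)
≤ L² ((D R^ε N)^k + 1)` if `L ≥ 6 R^(4k)` (ensured by `R^A ≤ L`, `A = 4k + 1`, `R ≥ 6`). (`S_MB` with
`c n = ‖ψ n‖`.) So at most `L² (D^k + 1) R^(-εk)` points violate the bound (Markov,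
`(R^ε √N)^(2k) = (R^(2ε) N)^k`). There are at most `9R · 9R · (R+1)²` parameters (`q`, `ψ`, `M`, `N`;
at most `q` characters modulo `q`, see `card_chars` in `Q255/CU/Ae.lean`), and
`324 R⁴ (D^k + 1) R^(-εk) ≤ R^(-B)` for `R ≥ R₀`. -/
def S_EX1 : Prop := ∀ (B : ℕ) (ε : ℝ), 0 < ε → ∃ A R₀ : ℕ, ∀ (a b : ℤ) (L R : ℕ), R₀ ≤ R →
  R ^ A ≤ L →
  (((range L ×ˢ range L).filter fun t : ℕ × ℕ => ¬ Good ε R (al (a + t.1) (b + t.2))).card : ℝ) ≤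
    (L : ℝ) ^ 2 / (R : ℝ) ^ B

open Classical in
/-- EX2: few `α` with a large sum over some interval. Uses `S_MO2` (`k = 1`), `S_MS`.
Proof: `K = 2 h`. For `|x|, |y| ≤ h` there are at least `h²` quadruples with `x = s - s'`, `y = t - t'`, so for
`Φ ≥ 0`: `∑_{|x|,|y| ≤ h} Φ(x, y) ≤ h^(-2) ∑_{s,s',t,t' < K} Φ(s - s', t - t')`. With `S_MO2`, `S_MS`: the
second moment over the box of one fixed interval in `[0, R]` is at most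
`h^(-2) (K⁴ 20 R + C K² R^(2+2η) R²) ≤ C' (h² R + R^(4+2η))`. Grid: if the sum over `(M, M+N]` has norm
`> 3g`, then the sum over the grid interval `(g i, g j]`, `i = ⌈M/g⌉`, `j = ⌊(M+N)/g⌋` (and `i ≤ j`), which
differs by at most `2g` terms of norm at most `1`, has norm `> g`. There are at most
`(R/g + 1)² ≤ 4 R²/g²` such grid intervals; Markov for each. -/
def S_EX2 : Prop := ∀ η : ℝ, 0 < η → ∃ C : ℝ, 0 < C ∧ ∀ (h R g : ℕ), 1 ≤ h → 1 ≤ g → g ≤ R →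
  ∀ c : ℕ → ℂ, (∀ n, ‖c n‖ ≤ 1) →
  ((((range (2 * h)) ×ˢ (range (2 * h))).filter fun t : ℕ × ℕ => ∃ M N : ℕ, M + N ≤ R ∧
    3 * (g : ℝ) < ‖∑ n ∈ Ioc M (M + N), c n * xi (al (-(h : ℤ) + t.1) (-(h : ℤ) + t.2)) n‖).card : ℝ) ≤
    C * (R : ℝ) ^ 2 * ((h : ℝ) ^ 2 * R + (R : ℝ) ^ (4 + 2 * η)) / (g : ℝ) ^ 4

/-- `∑_{M < a ≤ M+N} χ(a) ψ(a)` for all intervals in `[0, X]` and all characters `ψ` modulo `q ≤ X`:
square root cancellation up to the factor `X^ε` -/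
def SquareRoot (ε X : ℝ) {m : ℕ} (χ : DirichletCharacter ℂ m) : Prop :=
  ∀ q : ℕ, 1 ≤ q → (q : ℝ) ≤ X → ∀ (ψ : DirichletCharacter ℂ q) (M N : ℕ), ((M + N : ℕ) : ℝ) ≤ X →
    ‖∑ a ∈ Ioc M (M + N), χ (a : ZMod m) * ψ (a : ZMod q)‖ ≤ X ^ ε * Real.sqrt N

/-- FN1: the first part of the theorem. Uses `S_EX1`, `S_CNT`.
Proof: `(A, R₀)` of `S_EX1` for `B + 3` and `ε`; the new `A` is `2 A + 2` (at least `B + 1`). `S_CNT` with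
`Bad f = ¬ ∀ X ≥ Y, X^A' ≤ P → (bound for f and all q, ψ', M, N)`. If `Bad (xi α ψ)`, `ψ` modulo `d ∈ {1, 9}`,
there are `X ≥ Y`, `q ≤ X`, `ψ'`, `M, N` violating the bound; `ψ ψ'` is a character modulo `d q ≤ 9 R`,
`R = ⌊X⌋`, `M + N ≤ R`, `X^ε ≥ R^ε`: so `¬ Good ε R α`, with `R ≥ ⌊Y⌋`, `R^(2A+2) ≤ P`, and
`L = 2 (Nat.sqrt P + 1)` has `R^A ≤ L`, `L² ≤ 16 P` (`P ≥ 1`). Sum over `R ≥ ⌊Y⌋`:
`7 · 16 P ∑ R^(-B-3) ≤ 224 P ⌊Y⌋^(-B-2) ≤ P / Y^B` for `Y ≥ Y₀` (`⌊Y⌋ ≥ Y/2`). (Compare `scales_gen`,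
`real_height` and `tail_sum` in `Pool/Agent/Q152/QH/Scales.lean` and `All.lean`.) If there is no `R` with
`R ≥ ⌊Y⌋`, `R^A' ≤ P`, nothing is bad. -/
def S_FN1 : Prop := ∀ (B : ℕ) (ε : ℝ), 0 < ε → ∃ (A : ℕ) (Y₀ : ℝ), ∀ (P : ℕ) (Y : ℝ), Y₀ ≤ Y →
  (({χ ∈ family P | ¬ ∀ X : ℝ, Y ≤ X → X ^ A ≤ P → SquareRoot ε X χ.2}.ncard : ℕ) : ℝ) ≤ P / Y ^ B

/-- FN2: the second part of the theorem. Uses `S_EX2`, `S_CNT`.
Proof: `2 η = (1 - c - 4δ)` or smaller, `R = ⌊X⌋`, `g = ⌈R^(1-δ)⌉ ≤ R`, `g ≤ 2 R^(1-δ)`,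
`h = Nat.sqrt P + 1`, `P ≤ h² ≤ 4P`; `S_CNT` with `Bad f = ∃ M N, M + N ≤ X ∧ C X^(1-δ) < ‖∑ f‖` (`C ≥ 6`), at
most `7` pairs `(d, ψ)`, `S_EX2` with `c = ψ` for each: at most
`C' R² (h² R + R^(4+2η)) R^(-4+4δ) ≤ C'' P R^(-1+4δ+2η)`, since `R³ ≤ P`; `R ≥ X/2`. -/
def S_FN2 : Prop := ∀ δ c : ℝ, 0 < δ → 0 < c → c + 4 * δ < 1 → ∃ C : ℝ, 0 < C ∧
  ∀ (P : ℕ) (X : ℝ), 1 ≤ X → X ^ 3 ≤ P →
  (({χ ∈ family P | ∃ M N : ℕ, ((M + N : ℕ) : ℝ) ≤ X ∧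
    C * X ^ (1 - δ) < ‖∑ a ∈ Ioc M (M + N), χ.2 (a : ZMod χ.1)‖}.ncard : ℕ) : ℝ) ≤ C * P / X ^ c

end

end Pool.Agent.Q152.CC
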