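import Pool.Agent.Q152.CC.Stm2

set_option autoImplicit false

/-!
# Project CC (helper152), third part: size of the family, all moments, twists

Notation of `Stm.lean` and `Stm2.lean`.
-/

namespace Pool.Agent.Q152.CC

open Finset MeasureTheory Pool.Agent.Y692.QS
open Pool.Agent.Q255.CU (fc m3)

noncomputable section

/-- LBA: the Eisenstein integers with norm divisible by `p²` are in three ideals of norm `p²`.
Uses `S_PIX` (proved: `Pool.Agent.Q123.CC.pix`).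
Proof. `p % 3 = 2`: `γ₁ = γ₂ = γ₃ = p`. If `p ∣ x² - x y + y²` and `p ∤ y`, then `t = x/y` has
`t² - t + 1 = 0` in `ZMod p`, so `(-t)³ = 1`, so `-t = 1` (`3` is prime to `p - 1`), so `3 = 0`: no. So
`p ∣ y`, `p ∣ x`, `int_dvd`.
`p % 3 = 1`: `π` of `S_PIX`, `γ₁ = p = π (star π)`, `γ₂ = π²`, `γ₃ = (star π)²`. Claim: `p ∣ nr β` implies
`π ∣ β` or `star π ∣ β`: with `π = ⟨a, b⟩`, `β = ⟨x, y⟩` the imaginary parts of `β (star π)` and `β π` are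
`a y - b x` and `b x + a y - b y`, their product is `y² nr π - b² nr β`, divisible by `p`, so `p` divides
one of the imaginary parts `Y`; the norm `X² - X Y + Y² = p nr β` is divisible by `p`, so `p ∣ X` too, so
`p = π star π` divides `β (star π)` or `β π`. Now `p² ∣ nr α`: say `π ∣ α`, `α = π β`, `p ∣ nr β`, so
`π² ∣ α` or `p ∣ α`; the other case is the same. (`p % 3 = 0` only for `p = 3`.) -/
def S_LBA : Prop := ∀ p : ℕ, p.Prime → p ≠ 3 → ∃ γ₁ γ₂ γ₃ : Ei,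
  nr γ₁ = (p : ℤ) ^ 2 ∧ nr γ₂ = (p : ℤ) ^ 2 ∧ nr γ₃ = (p : ℤ) ^ 2 ∧
  ∀ α : Ei, ((p : ℤ) ^ 2) ∣ nr α → γ₁ ∣ α ∨ γ₂ ∣ α ∨ γ₃ ∣ α

/-- LBB: counting in a class.
Proof: for two such elements `γ (β - β') ≡ 0` and `γ` is a unit modulo `M`, so `M ∣ β - β'`
(`β - β' = (γ β) (β - β') - (γ β - 1)(β - β')`), so the real parts are in one class modulo `M`, the
imaginary parts too (`int_dvd`). As `nr β ≥ (3/4) max(re², im²)`, both are at most `√(4T/3)` in absolute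
value. So there are at most `(u + 1)² ≤ 2 u² + 2` elements, `u = 2 √(4T/3)/M`, `2 u² = 32 T/(3 M²)`. -/
def S_LBB : Prop := ∀ (M : ℕ) (γ : Ei) (T : ℝ), 1 ≤ M → 0 ≤ T →
  {β : Ei | ((M : ℤ) : Ei) ∣ γ * β - 1 ∧ ((nr β : ℤ) : ℝ) ≤ T}.Finite ∧
  (({β : Ei | ((M : ℤ) : Ei) ∣ γ * β - 1 ∧ ((nr β : ℤ) : ℝ) ≤ T}.ncard : ℕ) : ℝ) ≤
    11 * T / (M : ℝ) ^ 2 + 2

/-- LBC: a positive proportion of the norms is squarefree. Uses `S_LBA`, `S_LBB`.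
Proof: `z = 132`, `M = 3 · z!` (never computed). Count only the `α ≡ 1` modulo `M` with `nr α ≤ P`.
Lower bound for all: `α = ⟨1 + M a, M b⟩` with `|a|, |b| ≤ L`, `3 (M L + 1)² ≤ P`, at least
`(2 L + 1)² ≥ P/M²` for `P ≥ P₀` (`2/√3 > 1`). Those with `nr α` not squarefree: `p² ∣ nr α` for a prime
`p ≤ √P`; `nr α ≡ 1` modulo `M`, so `p > z`. `α = γ β` with `γ` one of three elements (`S_LBA`),
`nr β ≤ P/p²`: at most `3 (11 P/(M² p²) + 2)` (`S_LBB`). Sum over `z < p ≤ √P`: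
at most `33 P/(M² z) + 6 √P ≤ P/(2 M²)` for `P ≥ P₀`. So `c = 1/(2 M²)`. (`∑_{n > z} 1/n² ≤ 1/z`.) -/
def S_LBC : Prop := ∃ c : ℝ, 0 < c ∧ ∃ P₀ : ℕ, ∀ P : ℕ, P₀ ≤ P →
  {t : ℤ × ℤ | nr (al t.1 t.2) ≤ P ∧ Squarefree (nr (al t.1 t.2)).toNat}.Finite ∧
  c * P ≤ (({t : ℤ × ℤ | nr (al t.1 t.2) ≤ P ∧ Squarefree (nr (al t.1 t.2)).toNat}.ncard : ℕ) : ℝ)

/-- LBN: the number of elements of a norm. Uses `S_PIX` (proved: `Pool.Agent.Q123.CC.pix`).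
Proof: induction over the primes of `m` (`Nat.recOnMul` or strong induction). `m = 1`: `nr α = 1`,
`α ≡ 1` modulo `3`, so `α` is a unit and `α = ns α = 1` (`isUnit_iff`, `ns_unit`, `ns_fix`). `m = p m'`:
`π` of `S_PIX`, replaced by `ns π ≡ 1` modulo `3` (`nr_ns`, `ns_one`). If `nr α = p m'` then `π ∣ α` or
`star π ∣ α` (see the claim in `S_LBA`), the quotient is `1` modulo `3` and has norm `m'`. So at most
`2` times the number for `m'`. -/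
def S_LBN : Prop := ∀ m : ℕ, Squarefree m → (∀ p : ℕ, p.Prime → p ∣ m → p % 3 = 1) →
  {t : ℤ × ℤ | nr (al t.1 t.2) = m}.Finite ∧
  {t : ℤ × ℤ | nr (al t.1 t.2) = m}.ncard ≤ 2 ^ m.primeFactors.card

/-- LBX: the number of primitive cubic characters of a modulus.
Proof: for a prime `p ∣ m` there is a character `χ_p` modulo `p` of order `3` (`3 ∣ p - 1`, the group of
characters is isomorphic to the cyclic group `(ZMod p)ˣ`; or `chi` of `Y692/QS/Chi.lean` followed by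
`toC`). For `s : m.primeFactors → Bool` let `χ_s` be the product of the `changeLevel` of `χ_p` or
`χ_p²`. Then `χ_s³ = 1`. Take a unit `x` modulo `m` with `x ≡ 1` modulo `m/p` and `x ≡ g` modulo `p`,
`χ_p g ≠ 1`: `χ_s x = χ_p g` or `(χ_p g)²`, the two are different and different from `1`. So `s ↦ χ_s` is
injective and `χ_s` is primitive: its conductor `d ∣ m`, if `d ≠ m` some prime `p` divides `m/d`, `χ_s`
factors through `d`, `d ∣ m/p` (`m` is squarefree), so `χ_s x = 1` for the `x` above. -/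
def S_LBX : Prop := ∀ m : ℕ, Squarefree m → (∀ p : ℕ, p.Prime → p ∣ m → p % 3 = 1) →
  2 ^ m.primeFactors.card ≤ {χ : DirichletCharacter ℂ m | χ.IsPrimitive ∧ χ ^ 3 = 1}.ncard

/-- FAM: the family has at least `c P` members. Uses `S_LBC`, `S_LBN`, `S_LBX`, `S_CNT` (finiteness).
Proof: the set of `S_LBC` is the union over the squarefree `m ≤ P` of the sets of `S_LBN`; if `m` is
squarefree and `m = nr α`, `3 ∣ α - 1`, its primes are `1` modulo `3` (`nr α ≡ 1` modulo `3`; for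
`p % 3 = 2`, `p ∣ nr α` implies `p ∣ α` and `p² ∣ nr α`). So `c P ≤ ∑_m 2^ω(m) ≤ ∑_m #(S_LBX) ≤ #family`
(the characters of different moduli are different members). -/
def S_FAM : Prop := ∃ c : ℝ, 0 < c ∧ ∃ P₀ : ℕ, ∀ P : ℕ, P₀ ≤ P →
  c * P ≤ (((family P).ncard : ℕ) : ℝ)

open Classical in
/-- EX3: few `α` with a large sum, `2k`-th moments. Uses `S_MO2`, `S_MB`. Generalizes `S_EX2`, see its
proof in `Pool/Agent/Q190/CC/Ex2.lean`.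
Proof: `K = 2 h`. For `|x|, |y| ≤ h` there are at least `h²` quadruples with `x = s - s'`, `y = t - t'`, so for
`Φ ≥ 0`: `∑_{|x|,|y| ≤ h} Φ(x, y) ≤ h^(-2) ∑_{s,s',t,t' < K} Φ(s - s', t - t')`. With `S_MO2`, `S_MB` (with
`c n = ‖c n‖`): the `2k`-th moment over the box of one fixed interval in `[0, R]` of length `≤ N₀` is at
most `h^(-2) (K⁴ (D R^η N₀)^k + C K² R^(2k(1+η)) N₀^(2k))`. Grid: if the sum over `(M, M+N]` has norm
`> 3g`, then the sum over the grid interval `(g i, g j]`, `i = ⌈M/g⌉`, `j = ⌊(M+N)/g⌋` (and `i ≤ j`), which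
differs by at most `2g` terms of norm at most `1`, has norm `> g`. There are at most
`(R/g + 1)(N₀/g + 1) ≤ 4 R N₀/g²` such grid intervals (`j - i ≤ N₀/g`); Markov for each. -/
def S_EX3 : Prop := ∀ (k : ℕ) (η : ℝ), 1 ≤ k → 0 < η → ∃ C : ℝ, 0 < C ∧ ∀ (h R N₀ g : ℕ),
  1 ≤ h → 1 ≤ g → g ≤ N₀ → N₀ ≤ R → ∀ c : ℕ → ℂ, (∀ n, ‖c n‖ ≤ 1) →
  ((((range (2 * h)) ×ˢ (range (2 * h))).filter fun t : ℕ × ℕ => ∃ M N : ℕ, M + N ≤ R ∧ N ≤ N₀ ∧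
    3 * (g : ℝ) < ‖∑ n ∈ Ioc M (M + N), c n * xi (al (-(h : ℤ) + t.1) (-(h : ℤ) + t.2)) n‖).card : ℝ) ≤
    C * R * N₀ * ((h : ℝ) ^ 2 * ((R : ℝ) ^ η * N₀) ^ k +
      (R : ℝ) ^ (2 * k * (1 + η)) * (N₀ : ℝ) ^ (2 * k)) / (g : ℝ) ^ (2 * k + 2)

/-- FN3: intervals of length `≤ X` in `[0, X^θ]`, twists by characters of modulus `≤ X^τ`. Uses `S_EX3`,
`S_CNT`. Generalizes `S_FN2` (`k = 1`, `θ = 1`, `τ = 0`), see its proof in `Pool/Agent/Q79/CC/FN2.lean`.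
Proof: `R = ⌊X^θ⌋`, `N₀ = ⌊X⌋ ≤ R`, `g = ⌈N₀^(1-δ)⌉ ≤ N₀`, `g ≤ 2 N₀^(1-δ)`, `h = Nat.sqrt P + 1`,
`P ≤ h² ≤ 4P`; `S_CNT` with `Bad f = ∃ q ψ M N, …, C X^(1-δ) < ‖∑ f ψ‖` (`C ≥ 6`); at most `7` pairs
`(d, ψ₀)` and at most `X^(2τ)` pairs `(q, ψ)`; `S_EX3` with the coefficients `ψ₀ ψ` for each. The
first term: `7 X^(2τ) C' X^θ X · 4P X^(ηθk) X^k / (X^(1-δ)/4)^(2k+2)`, exponent of `X`:
`2τ + θ - (k+1) + (2k+2)δ + ηθk ≤ -c` for small `η`. The second term: exponent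
`2τ + θ + 1 + 2kθ(1+η) + 2k - (2k+2)(1-δ)`, at most `(2θ+1)k - c` for small `η`, and `X^((2θ+1)k) ≤ P`.
(`N₀ ≥ X/2`.) -/
def S_FN3 : Prop := ∀ (k : ℕ) (θ τ δ c : ℝ), 1 ≤ k → 1 ≤ θ → 0 ≤ τ → 0 < δ → 0 < c →
  c + θ + 2 * τ + 2 * (k + 1) * δ < k + 1 → ∃ C : ℝ, 0 < C ∧
  ∀ (P : ℕ) (X : ℝ), 1 ≤ X → X ^ ((2 * θ + 1) * k) ≤ P →
  (({χ ∈ family P | ∃ (q : ℕ) (ψ : DirichletCharacter ℂ q) (M N : ℕ), 1 ≤ q ∧ (q : ℝ) ≤ X ^ τ ∧
    (N : ℝ) ≤ X ∧ ((M + N : ℕ) : ℝ) ≤ X ^ θ ∧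
    C * X ^ (1 - δ) < ‖∑ a ∈ Ioc M (M + N), χ.2 (a : ZMod χ.1) * ψ (a : ZMod q)‖}.ncard : ℕ) : ℝ) ≤
    C * P / X ^ c

end

end Pool.Agent.Q152.CC
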